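import Pool.Agent.helper52.OC.SS4

/-!
# Project JT, module NC: the numerical choice of the parameters
-/

set_option autoImplicit false

open Finset

namespace Pool.Agent.helper7.JT

open OC (h52_exp135 h52_87 h52_87' h52_mu h52_geom h52_geom2 h52_eps h52_rpow)

/-- the setup of the parameters -/
structure NC_P (x L : ℝ) (M k a m : ℕ) (Kf : ℕ → ℕ) : Prop where
  x10 : 10 ≤ x
  M1 : 1 ≤ M
  Mx : (M : ℝ) ≤ x
  k1 : 200000 * (M : ℝ) ^ 2 * x ^ 2 * k ≤ L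
  k3 : 1000 * x ^ 2 ≤ k
  a1 : 1600 * M * x ≤ a * Real.log 2
  a2 : (a : ℝ) ≤ 2400 * M * x
  a3 : 2308 * M * x ≤ a
  m0 : 1 ≤ m
  m1 : 12 * (M * k) ≤ a * 2 ^ m
  m2 : a * 2 ^ m ≤ 24 * (M * k)
  n1 : (m + 1 : ℝ) ≤ 2 * x
  K1 : ∀ i, (k : ℝ) * (2 / 25) / 2 ^ (i - 1) + 40 * x ≤ Kf i
  K2 : ∀ i, (Kf i : ℝ) ≤ (k : ℝ) * (2 / 25) * (1 / 2 ^ (i - 1)) + 41 * x

variable {x L : ℝ} {M k a m : ℕ} {Kf : ℕ → ℕ}

theorem NC_P.sumK (h : NC_P x L M k a m Kf) :
    ∑ i ∈ Ico 1 (m + 1), (Kf i : ℝ) ≤ 0.16 * k + 82 * x ^ 2 := by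
  have hx := h.x10
  have hk := h.k3
  have hn := h.n1
  calc ∑ i ∈ Ico 1 (m + 1), (Kf i : ℝ)
      ≤ ∑ i ∈ Ico 1 (m + 1), ((k : ℝ) * (2 / 25) * (1 / 2 ^ (i - 1)) + 41 * x) :=
        Finset.sum_le_sum fun i _ => h.K2 i
    _ = (k : ℝ) * (2 / 25) * (∑ i ∈ Ico 1 (m + 1), 1 / (2 : ℝ) ^ (i - 1)) + m * (41 * x) := by
        rw [Finset.sum_add_distrib, Finset.mul_sum, Finset.sum_const, Nat.card_Ico]
        simp
    _ ≤ (k : ℝ) * (2 / 25) * 2 + (2 * x) * (41 * x) := by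
        gcongr
        · exact h52_geom _
        · linarith
    _ = 0.16 * k + 82 * x ^ 2 := by ring

/-- condition 10 -/
theorem NC_P.c10 (h : NC_P x L M k a m Kf) (s CD : ℕ) (e3 : 2 * (s + CD : ℝ) ≤ x) :
    2 * (∑ i ∈ Ico 1 (m + 1), Kf i + s + CD) ≤ k := by
  have h1 := h.sumK
  have hx := h.x10
  have hk := h.k3
  have h2 : (2 * (∑ i ∈ Ico 1 (m + 1), (Kf i : ℝ) + s + CD)) ≤ k := by
    nlinarith
  exact_mod_cast h2

theorem NC_P.sumS (h : NC_P x L M k a m Kf) :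
    a * k + ∑ i ∈ Ico 1 (m + 1), (a * 2 ^ i * Kf i : ℝ) ≤ (768 * x ^ 2 + 4368 * x) * (M * k) := by
  have hx := h.x10
  have hk := h.k3
  have hn := h.n1
  have ha := h.a2
  have hM : (0 : ℝ) ≤ M := Nat.cast_nonneg M
  have hm2 : (a * 2 ^ m : ℝ) ≤ 24 * (M * k) := by exact_mod_cast h.m2
  have h1 : ∀ i ∈ Ico 1 (m + 1), (a * 2 ^ i * Kf i : ℝ) ≤ a * (0.16 * k) + 41 * x * a * 2 ^ i := by
    intro i hi
    rw [Finset.mem_Ico] at hi
    have h2 := h.K2 i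
    have h3 : (2 : ℝ) ^ i = 2 * 2 ^ (i - 1) := by
      rw [← pow_succ']
      congr 1
      omega
    calc (a * 2 ^ i * Kf i : ℝ)
          ≤ a * 2 ^ i * ((k : ℝ) * (2 / 25) * (1 / 2 ^ (i - 1)) + 41 * x) := by gcongr
      _ = a * (0.16 * k) * (2 ^ (i - 1) / 2 ^ (i - 1)) + 41 * x * a * 2 ^ i := by
          rw [h3]
          ring
      _ = a * (0.16 * k) + 41 * x * a * 2 ^ i := by
          rw [div_self (by positivity), mul_one]
  have h2 : ∑ i ∈ Ico 1 (m + 1), (a * 2 ^ i * Kf i : ℝ) ≤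
      m * (a * (0.16 * k)) + 41 * x * a * (2 * 2 ^ m) := by
    refine (Finset.sum_le_sum h1).trans ?_
    rw [Finset.sum_add_distrib, Finset.sum_const, Nat.card_Ico, Nat.add_sub_cancel, nsmul_eq_mul,
      ← Finset.mul_sum]
    have h3 := h52_geom2 m
    gcongr
  have h3 : m * (a * (0.16 * k)) ≤ (2 * x) * ((2400 * M * x) * (0.16 * k)) := by
    gcongr
    linarith
  have h4 : 41 * x * a * (2 * 2 ^ m) ≤ 82 * x * (24 * (M * k)) := by
    calc 41 * x * a * (2 * 2 ^ m) = 82 * x * (a * 2 ^ m) := by ring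
      _ ≤ 82 * x * (24 * (M * k)) := by gcongr
  have h5 : (a * k : ℝ) ≤ 2400 * M * x * k := by gcongr
  have h6 : (2 * x) * ((2400 * M * x) * (0.16 * k)) = 768 * x ^ 2 * (M * k) := by ring
  have h7 : 82 * x * (24 * (M * k)) = 1968 * x * (M * k : ℝ) := by ring
  have h8 : 2400 * M * x * k = 2400 * x * (M * k : ℝ) := by ring
  rw [h6] at h3
  rw [h7] at h4
  rw [h8] at h5
  have h9 : (768 * x ^ 2 + 4368 * x) * (M * k)
      = 768 * x ^ 2 * (M * k) + 1968 * x * (M * k) + 2400 * x * (M * k : ℝ) := by ring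
  rw [h9]
  linarith

/-- condition 11 -/
theorem NC_P.c11 (h : NC_P x L M k a m Kf) (C₃ CD W X : ℕ) (hX : (X : ℝ) = Real.exp L)
    (e2 : (C₃ * CD : ℝ) ≤ x) (eW : (W : ℝ) ≤ x) :
    ((C₃ * (8 ^ (M * k)) ^ C₃) ^ CD *
      (2 ^ (2 * (a * k + ∑ i ∈ Ico 1 (m + 1), a * 2 ^ i * Kf i))) ^ M *
      2 ^ (W * (a * 2 ^ m))) ^ 32 ≤ X := by
  have hx := h.x10
  have hk := h.k3
  have hk1 := h.k1
  have hS := h.sumS
  have hM1 : (1 : ℝ) ≤ M := by exact_mod_cast h.M1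
  have hm2 : ((a * 2 ^ m : ℕ) : ℝ) ≤ 24 * (M * k) := by exact_mod_cast h.m2
  set S := a * k + ∑ i ∈ Ico 1 (m + 1), a * 2 ^ i * Kf i with hSdef
  have hS' : (S : ℝ) ≤ (768 * x ^ 2 + 4368 * x) * (M * k) := by
    rw [hSdef]
    push_cast
    exact hS
  set T := a * 2 ^ m with hT
  have h1 : ((C₃ * (8 ^ (M * k)) ^ C₃) ^ CD * (2 ^ (2 * S)) ^ M * 2 ^ (W * T)) ^ 32 ≤
      2 ^ (32 * ((C₃ + 3 * (M * k) * C₃) * CD + 2 * S * M + W * T)) := by
    have h2 : C₃ ≤ 2 ^ C₃ := Nat.lt_two_pow_self.le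
    calc ((C₃ * (8 ^ (M * k)) ^ C₃) ^ CD * (2 ^ (2 * S)) ^ M * 2 ^ (W * T)) ^ 32
        ≤ ((2 ^ C₃ * (8 ^ (M * k)) ^ C₃) ^ CD * (2 ^ (2 * S)) ^ M * 2 ^ (W * T)) ^ 32 := by gcongr
      _ = 2 ^ (32 * ((C₃ + 3 * (M * k) * C₃) * CD + 2 * S * M + W * T)) := by
          rw [show (8 : ℕ) = 2 ^ 3 by norm_num]
          simp only [← pow_mul, ← pow_add]
          congr 1
          ring
  have h3 : ((2 ^ (32 * ((C₃ + 3 * (M * k) * C₃) * CD + 2 * S * M + W * T)) : ℕ) : ℝ) ≤ X := by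
    rw [hX]
    push_cast
    rw [← Real.rpow_natCast, Real.rpow_def_of_pos (by norm_num), Real.exp_le_exp]
    push_cast
    have h4 : Real.log 2 ≤ 0.7 := by
      have := Real.log_two_lt_d9
      linarith
    obtain ⟨q, hq⟩ : ∃ q : ℝ, q = M * k := ⟨_, rfl⟩
    have hk1' : (1 : ℝ) ≤ k := by nlinarith
    have hq1 : 1 ≤ q := by
      rw [hq]
      nlinarith
    have hx2 : 10 * x ≤ x ^ 2 := by nlinarith
    have e1 : (C₃ + 3 * q * C₃ : ℝ) * CD ≤ 4 * q * x := by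
      have h0 : (0 : ℝ) ≤ C₃ * CD := by positivity
      have h5 : (C₃ + 3 * q * C₃ : ℝ) * CD = (1 + 3 * q) * (C₃ * CD) := by ring
      rw [h5]
      have h6 : (1 + 3 * q) ≤ 4 * q := by linarith
      calc (1 + 3 * q) * (C₃ * CD) ≤ (4 * q) * x := by
            apply mul_le_mul h6 e2 h0 (by linarith)
        _ = 4 * q * x := by ring
    have e1' : 4 * q * x ≤ 0.4 * (M * (q * x ^ 2)) := by
      have h5 : 4 * q * x ≤ 0.4 * (q * x ^ 2) := by nlinarith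
      have h6 : (0 : ℝ) ≤ q * x ^ 2 := by positivity
      nlinarith
    have e2' : 2 * (S : ℝ) * M ≤ 2410 * (M * (q * x ^ 2)) := by
      rw [← hq] at hS'
      have h5 : (768 * x ^ 2 + 4368 * x) * q ≤ 1205 * (q * x ^ 2) := by nlinarith
      have h6 : (S : ℝ) ≤ 1205 * (q * x ^ 2) := hS'.trans h5
      calc 2 * (S : ℝ) * M ≤ 2 * (1205 * (q * x ^ 2)) * M := by gcongr
        _ = 2410 * (M * (q * x ^ 2)) := by ring
    have e3' : (W : ℝ) * T ≤ 2.4 * (M * (q * x ^ 2)) := by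
      rw [← hq] at hm2
      have hT0 : (0 : ℝ) ≤ T := Nat.cast_nonneg _
      have h5 : (W : ℝ) * T ≤ x * (24 * q) := by
        apply mul_le_mul eW hm2 hT0 (by linarith)
      have h6 : x * (24 * q) ≤ 2.4 * (q * x ^ 2) := by nlinarith
      have h7 : (0 : ℝ) ≤ q * x ^ 2 := by positivity
      nlinarith
    have h5 : 32 * ((C₃ + 3 * (M * k) * C₃ : ℝ) * CD + 2 * S * M + W * T)
        ≤ 77400 * (M * (q * x ^ 2)) := by
      rw [← hq]
      have h6 : (0 : ℝ) ≤ M * (q * x ^ 2) := by positivity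
      linarith
    have hT' : ((a : ℝ) * 2 ^ m) = T := by
      rw [hT]
      push_cast
      rfl
    calc Real.log 2 * (32 * ((C₃ + 3 * (M * k) * C₃ : ℝ) * CD + 2 * S * M + W * T))
        ≤ 0.7 * (77400 * (M * (q * x ^ 2))) := by gcongr
      _ ≤ 200000 * (M : ℝ) ^ 2 * x ^ 2 * k := by
          rw [hq]
          have : (0 : ℝ) ≤ (M : ℝ) ^ 2 * x ^ 2 * k := by positivity
          nlinarith
      _ ≤ L := hk1
  exact_mod_cast ((Nat.cast_le (α := ℝ)).2 h1).trans h3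

/-- condition 12 -/
theorem NC_P.c12 (h : NC_P x L M k a m Kf) (hL : L = Real.exp x) (C₄ ε : ℝ) (N₀ : ℕ)
    (hC₄ : 1 ≤ C₄) (hε : 0 < ε) (e4 : 800 * (N₀ + 1) / ε ≤ x) (e5 : C₄ ≤ x) (K₀ : ℕ)
    (hK : k ≤ 2 * K₀) :
    L ^ 10 * ((8 : ℝ) ^ (M * k)) ^ (14 / (1600 * M) : ℝ) * (87 / 100 : ℝ) ^ K₀
        + ∑ i ∈ Ico 1 (m + 1), 10 * (C₄ * (M * (k : ℝ)) ^ 2) ^ (12 * (M * k) / (a * 2 ^ (i - 1)) + 1)
            * (87 / 100 : ℝ) ^ (Kf i) ≤ ε := by
  have hx := h.x10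
  have hk := h.k3
  have hk1 := h.k1
  have hn := h.n1
  have l1 := Real.log_two_lt_d9
  have l2 := Real.log_two_gt_d9
  have hM1 : (1 : ℝ) ≤ M := by exact_mod_cast h.M1
  have hK' : (k : ℝ) ≤ 2 * K₀ := by exact_mod_cast hK
  have hk0 : (0 : ℝ) ≤ k := Nat.cast_nonneg k
  have hε1 : Real.exp (-x) ≤ ε / 800 := by
    have h1 := h52_eps hε e4
    have h2 := Real.exp_pos (-x)
    have h3 : (0 : ℝ) ≤ N₀ := Nat.cast_nonneg _
    nlinarith
  have hkx : 10000 * x ≤ k := by nlinarith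
  have T1 : L ^ 10 * ((8 : ℝ) ^ (M * k)) ^ (14 / (1600 * M) : ℝ) * (87 / 100 : ℝ) ^ K₀
      ≤ Real.exp (-x) := by
    have h1 : L ^ 10 = Real.exp (10 * x) := by
      rw [hL, ← Real.exp_nat_mul]
      norm_num
    have h2 : ((8 : ℝ) ^ (M * k)) ^ (14 / (1600 * M) : ℝ) ≤ Real.exp (0.0183 * k) := by
      rw [h52_rpow, Real.exp_le_exp]
      push_cast
      have h5 : 3 * (14 / (1600 * M) : ℝ) * Real.log 2 * (M * k)
          = 42 / 1600 * (Real.log 2 * k) := by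
        have hMne : (M : ℝ) ≠ 0 := by positivity
        field_simp
        ring
      rw [h5]
      nlinarith
    have h3 := h52_87' K₀ (0.0675 * k) (by linarith)
    calc L ^ 10 * ((8 : ℝ) ^ (M * k)) ^ (14 / (1600 * M) : ℝ) * (87 / 100 : ℝ) ^ K₀
        ≤ Real.exp (10 * x) * Real.exp (0.0183 * k) * Real.exp (-(0.0675 * k)) := by
          rw [h1]
          gcongr
      _ = Real.exp (10 * x + 0.0183 * k + -(0.0675 * k)) := by rw [Real.exp_add, Real.exp_add]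
      _ ≤ Real.exp (-x) := by
          rw [Real.exp_le_exp]
          linarith
  have hCk : C₄ * (M * (k : ℝ)) ^ 2 ≤ Real.exp (2 * x) := by
    have h1 : Real.exp (2 * x) = L ^ 2 := by
      rw [hL, ← Real.exp_nat_mul]
      norm_num
    rw [h1]
    have h2 : (x * (M * k)) ^ 2 ≤ L ^ 2 := by
      apply pow_le_pow_left₀ (by positivity)
      have h3 : x * (M * k) ≤ 200000 * (M : ℝ) ^ 2 * x ^ 2 * k := by
        have h4 : x * M ≤ 200000 * (M : ℝ) ^ 2 * x ^ 2 := by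
          have h5 : (1 : ℝ) ≤ M * x := by nlinarith
          nlinarith
        calc x * (M * k) = (x * M) * k := by ring
          _ ≤ (200000 * (M : ℝ) ^ 2 * x ^ 2) * k := by gcongr
      linarith
    calc C₄ * (M * (k : ℝ)) ^ 2 ≤ x ^ 2 * (M * (k : ℝ)) ^ 2 := by
          have : C₄ ≤ x ^ 2 := by nlinarith
          gcongr
      _ = (x * (M * k)) ^ 2 := by ring
      _ ≤ L ^ 2 := h2
  have T2 : ∀ i ∈ Ico 1 (m + 1),
      10 * (C₄ * (M * (k : ℝ)) ^ 2) ^ (12 * (M * k) / (a * 2 ^ (i - 1)) + 1)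
            * (87 / 100 : ℝ) ^ (Kf i) ≤ 10 * Real.exp (-(3 * x)) := by
    intro i _
    set y : ℝ := (k : ℝ) / 2 ^ (i - 1) with hy
    have hy0 : 0 ≤ y := by positivity
    have h1 : ((12 * (M * k) / (a * 2 ^ (i - 1)) : ℕ) : ℝ) ≤ 12 / (2308 * x) * y := by
      refine Nat.cast_div_le.trans ?_
      push_cast
      have h3 := h.a3
      have h4 : 12 / (2308 * x) * y = 12 * (M * k) / ((2308 * M * x) * 2 ^ (i - 1)) := by
        rw [hy]
        have hMne : (M : ℝ) ≠ 0 := by positivity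
        have hxne : x ≠ 0 := by positivity
        field_simp
      rw [h4]
      gcongr
    have h2 : (C₄ * (M * (k : ℝ)) ^ 2) ^ (12 * (M * k) / (a * 2 ^ (i - 1)) + 1) ≤
        Real.exp (2 * x + 24 / 2308 * y) := by
      calc (C₄ * (M * (k : ℝ)) ^ 2) ^ (12 * (M * k) / (a * 2 ^ (i - 1)) + 1)
          ≤ Real.exp (2 * x) ^ (12 * (M * k) / (a * 2 ^ (i - 1)) + 1) := by gcongr
        _ = Real.exp (((12 * (M * k) / (a * 2 ^ (i - 1)) : ℕ) + 1 : ℝ) * (2 * x)) := by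
            rw [← Real.exp_nat_mul]
            push_cast
            rfl
        _ ≤ Real.exp (2 * x + 24 / 2308 * y) := by
            rw [Real.exp_le_exp]
            calc ((12 * (M * k) / (a * 2 ^ (i - 1)) : ℕ) + 1 : ℝ) * (2 * x)
                ≤ (12 / (2308 * x) * y + 1) * (2 * x) := by gcongr
              _ = 2 * x + 24 / 2308 * y := by
                  have hxne : x ≠ 0 := by positivity
                  field_simp
                  ring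
    have h3 := h52_87' (Kf i) (0.0108 * y + 5.4 * x) (by
      have := h.K1 i
      have e : (k : ℝ) * (2 / 25) / 2 ^ (i - 1) = 0.08 * y := by
        rw [hy]
        ring
      rw [e] at this
      linarith)
    calc 10 * (C₄ * (M * (k : ℝ)) ^ 2) ^ (12 * (M * k) / (a * 2 ^ (i - 1)) + 1)
          * (87 / 100 : ℝ) ^ (Kf i)
        ≤ 10 * Real.exp (2 * x + 24 / 2308 * y) * Real.exp (-(0.0108 * y + 5.4 * x)) := by gcongr
      _ = 10 * Real.exp (2 * x + 24 / 2308 * y + -(0.0108 * y + 5.4 * x)) := by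
          rw [mul_assoc, ← Real.exp_add]
      _ ≤ 10 * Real.exp (-(3 * x)) := by
          gcongr
          have : 24 / 2308 * y ≤ 0.0108 * y := by nlinarith
          linarith
  have T3 := Finset.sum_le_sum T2
  rw [Finset.sum_const, Nat.card_Ico, Nat.add_sub_cancel, nsmul_eq_mul] at T3
  have T4 : m * (10 * Real.exp (-(3 * x))) ≤ 20 * Real.exp (-x) := by
    have h1 : (m : ℝ) ≤ 2 * Real.exp x := by
      have := Real.add_one_le_exp x
      linarith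
    have h2 : Real.exp (-(3 * x)) = Real.exp (-x) * Real.exp (-x) * Real.exp (-x) := by
      rw [← Real.exp_add, ← Real.exp_add]
      ring_nf
    have h3 : Real.exp x * Real.exp (-x) = 1 := by
      rw [← Real.exp_add]
      simp
    have h4 : Real.exp (-x) ≤ 1 := Real.exp_le_one_iff.2 (by linarith)
    have h5 := Real.exp_pos (-x)
    calc (m : ℝ) * (10 * Real.exp (-(3 * x))) ≤ (2 * Real.exp x) * (10 * Real.exp (-(3 * x))) := by
          gcongr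
      _ = 20 * (Real.exp x * Real.exp (-x)) * Real.exp (-x) * Real.exp (-x) := by
          rw [h2]
          ring
      _ = 20 * Real.exp (-x) * Real.exp (-x) := by
          rw [h3]
          ring
      _ ≤ 20 * Real.exp (-x) * 1 := by gcongr
      _ = 20 * Real.exp (-x) := by ring
  linarith

/-- condition 13 -/
theorem NC_P.c13 (h : NC_P x L M k a m Kf) (hL : L = Real.exp x) (ε : ℝ) (N₀ W X : ℕ)
    (hX : (X : ℝ) = Real.exp L) (hε : 0 < ε) (e4 : 800 * (N₀ + 1) / ε ≤ x)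
    (eW : (W : ℝ) ≤ x) :
    (N₀ + 1 + M * (√(24 * X) * (8 * L ^ 10 *
        ((8 : ℝ) ^ (M * k)) ^ (14 / (1600 * M) - 1 / 2 : ℝ))))
        * (2 ^ (M * k + W) * (2 * (5 * √X))) ≤ ε * (X / L) := by
  have hx := h.x10
  have hk := h.k3
  have hk1 := h.k1
  have hMx := h.Mx
  have l1 := Real.log_two_lt_d9
  have l2 := Real.log_two_gt_d9
  have hM1 : (1 : ℝ) ≤ M := by exact_mod_cast h.M1
  have hk0 : (0 : ℝ) ≤ k := Nat.cast_nonneg k
  have hW0 : (0 : ℝ) ≤ W := Nat.cast_nonneg W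
  have hN : (0 : ℝ) ≤ N₀ := Nat.cast_nonneg _
  have hε2 := h52_eps hε e4
  have hε1 : Real.exp (-x) ≤ ε / 800 := by
    have h2 := Real.exp_pos (-x)
    nlinarith
  have hkx : 10000 * x ≤ k := by nlinarith
  have hMk : (k : ℝ) ≤ M * k := by nlinarith
  have hkL : 1000 * (M * k) ≤ L := by
    have : (1000 : ℝ) * (M * k) ≤ 200000 * (M : ℝ) ^ 2 * x ^ 2 * k := by
      have h5 : (1000 : ℝ) * M ≤ 200000 * (M : ℝ) ^ 2 * x ^ 2 := by
        have h6 : (M : ℝ) ≤ (M : ℝ) ^ 2 := by nlinarith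
        have h7 : (1 : ℝ) ≤ x ^ 2 := by nlinarith
        have h8 : (M : ℝ) ^ 2 ≤ (M : ℝ) ^ 2 * x ^ 2 := by nlinarith
        nlinarith
      calc (1000 : ℝ) * (M * k) = (1000 * M) * k := by ring
        _ ≤ (200000 * (M : ℝ) ^ 2 * x ^ 2) * k := by gcongr
    linarith
  have h24 : √(24 * (X : ℝ)) ≤ 5 * √(X : ℝ) := by
    rw [Real.sqrt_le_left (by positivity), mul_pow, Real.sq_sqrt (Nat.cast_nonneg _)]
    have : (0 : ℝ) ≤ X := Nat.cast_nonneg _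
    linarith
  have hw : √(X : ℝ) = Real.exp (L / 2) := by rw [hX, Real.exp_half]
  have hL10 : L ^ 10 = Real.exp (10 * x) := by
    rw [hL, ← Real.exp_nat_mul]
    norm_num
  have h2k : (2 : ℝ) ^ (M * k + W) = Real.exp (Real.log 2 * (M * k + W)) := by
    rw [← Real.rpow_natCast, Real.rpow_def_of_pos (by norm_num)]
    push_cast
    rfl
  have hE : ((8 : ℝ) ^ (M * k)) ^ (14 / (1600 * M) - 1 / 2 : ℝ) * 2 ^ (M * k + W)
      ≤ Real.exp (x - 0.3 * k) := by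
    rw [h52_rpow, h2k, ← Real.exp_add, Real.exp_le_exp]
    push_cast
    have h5 : 3 * (14 / (1600 * M) - 1 / 2 : ℝ) * Real.log 2 * (M * k)
        = Real.log 2 * (42 / 1600 * k - 3 / 2 * (M * k)) := by
      have hMne : (M : ℝ) ≠ 0 := by positivity
      field_simp
      ring
    rw [h5]
    have h6 : Real.log 2 * (42 / 1600 * k - 3 / 2 * (M * k)) + Real.log 2 * (M * k + W)
        = Real.log 2 * W - Real.log 2 * (1 / 2 * (M * k) - 42 / 1600 * k) := by ring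
    rw [h6]
    have h7 : Real.log 2 * W ≤ x := by
      calc Real.log 2 * W ≤ 1 * x := by
            apply mul_le_mul (by linarith) eW hW0 (by norm_num)
        _ = x := one_mul x
    have h8 : 0.47 * k ≤ 1 / 2 * (M * k) - 42 / 1600 * (k : ℝ) := by linarith
    have h9 : 0.3 * (k : ℝ) ≤ Real.log 2 * (1 / 2 * (M * k) - 42 / 1600 * k) := by
      calc 0.3 * (k : ℝ) ≤ 0.69 * (0.47 * k) := by linarith
        _ ≤ Real.log 2 * (1 / 2 * (M * k) - 42 / 1600 * k) := by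
            apply mul_le_mul (by linarith) h8 (by positivity) (by linarith)
    linarith
  have hR : ε * (X / L) = ε * (Real.exp L * Real.exp (-x)) := by
    rw [hX, Real.exp_neg, ← hL, div_eq_mul_inv]
  have hf : (N₀ + 1) * (2 ^ (M * k + W) * (2 * (5 * √(X : ℝ))))
      ≤ ε / 80 * (Real.exp L * Real.exp (-x)) := by
    calc (N₀ + 1) * (2 ^ (M * k + W) * (2 * (5 * √(X : ℝ))))
        = 10 * (N₀ + 1) * Real.exp (Real.log 2 * (M * k + W) + L / 2) := by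
          rw [hw, h2k, Real.exp_add]
          ring
      _ ≤ 10 * (N₀ + 1) * Real.exp (L + -x + -x) := by
          refine mul_le_mul_of_nonneg_left (Real.exp_le_exp.2 ?_) (by positivity)
          have h5 : Real.log 2 * (M * k + W) ≤ M * k + x := by
            have h6 : (0 : ℝ) ≤ M * k + W := by positivity
            nlinarith
          nlinarith
      _ = 10 * ((N₀ + 1) * Real.exp (-x)) * (Real.exp L * Real.exp (-x)) := by
          rw [Real.exp_add, Real.exp_add]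
          ring
      _ ≤ 10 * (ε / 800) * (Real.exp L * Real.exp (-x)) := by gcongr
      _ = ε / 80 * (Real.exp L * Real.exp (-x)) := by ring
  have hs : M * (√(24 * (X : ℝ)) * (8 * L ^ 10 *
      ((8 : ℝ) ^ (M * k)) ^ (14 / (1600 * M) - 1 / 2 : ℝ))) *
      (2 ^ (M * k + W) * (2 * (5 * √(X : ℝ)))) ≤ ε / 2 * (Real.exp L * Real.exp (-x)) := by
    have hMe : (M : ℝ) ≤ Real.exp x := by
      have := Real.add_one_le_exp x
      linarith
    calc M * (√(24 * (X : ℝ)) * (8 * L ^ 10 *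
          ((8 : ℝ) ^ (M * k)) ^ (14 / (1600 * M) - 1 / 2 : ℝ))) *
          (2 ^ (M * k + W) * (2 * (5 * √(X : ℝ))))
        = 80 * M * √(24 * (X : ℝ)) * √(X : ℝ) * L ^ 10 *
            (((8 : ℝ) ^ (M * k)) ^ (14 / (1600 * M) - 1 / 2 : ℝ) * 2 ^ (M * k + W)) := by ring
      _ ≤ 80 * Real.exp x * (5 * √(X : ℝ)) * √(X : ℝ) * Real.exp (10 * x)
            * Real.exp (x - 0.3 * k) := by
          rw [hL10]
          gcongr
      _ = 400 * (√(X : ℝ) * √(X : ℝ)) * Real.exp (x + 10 * x + (x - 0.3 * k)) := by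
          rw [Real.exp_add, Real.exp_add]
          ring
      _ ≤ 400 * (√(X : ℝ) * √(X : ℝ)) * Real.exp (-x + -x) := by
          refine mul_le_mul_of_nonneg_left (Real.exp_le_exp.2 ?_) (by positivity)
          linarith
      _ = 400 * Real.exp (-x) * (Real.exp L * Real.exp (-x)) := by
          rw [Real.mul_self_sqrt (Nat.cast_nonneg _), hX, Real.exp_add]
          ring
      _ ≤ 400 * (ε / 800) * (Real.exp L * Real.exp (-x)) := by gcongr
      _ = ε / 2 * (Real.exp L * Real.exp (-x)) := by ring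
  rw [hR, add_mul]
  have hp : 0 < ε * (Real.exp L * Real.exp (-x)) := by positivity
  linarith

/-- existence of the parameters -/
theorem NC_params (x L : ℝ) (M : ℕ) (hM : 1 ≤ M) (hL : L = Real.exp x) (x10 : 10 ≤ x)
    (hMx : (M : ℝ) ≤ x) (e7 : 400000000 * x ^ 6 ≤ L) :
    ∃ (μ a m : ℕ) (Kf : ℕ → ℕ), 2 ≤ μ ∧ L / (200000 * (M : ℝ) ^ 2 * x ^ 2) ≤ 2 ^ μ ∧
      (2 : ℝ) ^ μ * (100000 * (M : ℝ) ^ 2 * x ^ 2) ≤ L ∧ NC_P x L M (2 ^ (μ - 1)) a m Kf := by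
  have l1 := Real.log_two_lt_d9
  have l2 := Real.log_two_gt_d9
  have hx2 : 100 ≤ x ^ 2 := by nlinarith
  have hM1 : (1 : ℝ) ≤ M := by exact_mod_cast hM
  have hM2 : (M : ℝ) ^ 2 ≤ x ^ 2 := by gcongr
  have hM21 : (1 : ℝ) ≤ (M : ℝ) ^ 2 := by nlinarith
  have hx4 : (M : ℝ) ^ 2 * x ^ 2 ≤ x ^ 4 := by
    calc (M : ℝ) ^ 2 * x ^ 2 ≤ x ^ 2 * x ^ 2 := by gcongr
      _ = x ^ 4 := by ring
  have hpos : 0 < (M : ℝ) ^ 2 * x ^ 2 := by positivity
  obtain ⟨μ, h2, h3, h4⟩ := h52_mu (y := L / (100000 * (M : ℝ) ^ 2 * x ^ 2)) (by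
    rw [le_div_iff₀ (by positivity)]
    have : x ^ 4 ≤ x ^ 6 := pow_le_pow_right₀ (by linarith) (by norm_num)
    nlinarith)
  rw [le_div_iff₀ (by positivity)] at h3
  rw [div_lt_iff₀ (by positivity)] at h4
  set k := 2 ^ (μ - 1) with hk
  have hk' : (2 : ℝ) ^ μ = 2 * k := by
    rw [hk]
    push_cast
    rw [← pow_succ']
    congr 1
    omega
  have k1 : 200000 * (M : ℝ) ^ 2 * x ^ 2 * k ≤ L := by
    rw [hk'] at h3
    linarith
  have k3 : 1000 * x ^ 2 ≤ k := by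
    rw [pow_succ, hk'] at h4
    have h5 : 400000 * (M : ℝ) ^ 2 * x ^ 2 * (1000 * x ^ 2) ≤ 400000000 * x ^ 6 := by
      calc 400000 * (M : ℝ) ^ 2 * x ^ 2 * (1000 * x ^ 2)
          = 400000000 * ((M : ℝ) ^ 2 * x ^ 2) * x ^ 2 := by ring
        _ ≤ 400000000 * x ^ 4 * x ^ 2 := by gcongr
        _ = 400000000 * x ^ 6 := by ring
    have h6 : 400000 * (M : ℝ) ^ 2 * x ^ 2 * (1000 * x ^ 2)
        < 400000 * (M : ℝ) ^ 2 * x ^ 2 * k := by
      calc 400000 * (M : ℝ) ^ 2 * x ^ 2 * (1000 * x ^ 2) ≤ 400000000 * x ^ 6 := h5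
        _ ≤ L := e7
        _ < 2 * k * 2 * (100000 * (M : ℝ) ^ 2 * x ^ 2) := h4
        _ = 400000 * (M : ℝ) ^ 2 * x ^ 2 * k := by ring
    exact (lt_of_mul_lt_mul_left h6 (by positivity)).le
  obtain ⟨a, ha⟩ : ∃ a, a = ⌈1600 * M * x / Real.log 2⌉₊ := ⟨_, rfl⟩
  have hlog : 0 < Real.log 2 := by linarith
  have hMx0 : 10 ≤ (M : ℝ) * x := by nlinarith
  have a0 : 1600 * M * x / Real.log 2 ≤ a := by
    rw [ha]
    exact Nat.le_ceil _
  have a1 : 1600 * M * x ≤ a * Real.log 2 := by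
    rwa [div_le_iff₀ hlog] at a0
  have a2 : (a : ℝ) ≤ 2400 * M * x := by
    have h5 : (a : ℝ) < 1600 * M * x / Real.log 2 + 1 := by
      rw [ha]
      exact Nat.ceil_lt_add_one (by positivity)
    have h6 : 1600 * M * x / Real.log 2 ≤ 2399 * (M * x) := by
      rw [div_le_iff₀ hlog]
      nlinarith
    linarith
  have a3 : 2308 * M * x ≤ a := by
    by_contra h5
    push Not at h5
    have h6 : (a : ℝ) * Real.log 2 ≤ 2308 * M * x * Real.log 2 := by gcongr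
    nlinarith
  have apos : 0 < a := by
    have : (0 : ℝ) < a := by nlinarith
    exact_mod_cast this
  have hex : ∃ m, 12 * (M * k) ≤ a * 2 ^ m := by
    refine ⟨12 * (M * k), ?_⟩
    calc 12 * (M * k) ≤ 2 ^ (12 * (M * k)) := Nat.lt_two_pow_self.le
      _ ≤ a * 2 ^ (12 * (M * k)) := Nat.le_mul_of_pos_left _ apos
  obtain ⟨m, hm⟩ : ∃ m, m = Nat.find hex := ⟨_, rfl⟩
  have m1 : 12 * (M * k) ≤ a * 2 ^ m := by
    rw [hm]
    exact Nat.find_spec hex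
  have m3 : ∀ i < m, a * 2 ^ i < 12 * (M * k) := by
    intro i hi
    rw [hm] at hi
    have := Nat.find_min hex hi
    omega
  have hak : (a : ℝ) < 12 * (M * k) := by
    have h5 : (M : ℝ) * (1000 * x ^ 2) ≤ M * k := by gcongr
    have h6 : (M : ℝ) * (1000 * x ^ 2) = 1000 * x * (M * x) := by ring
    nlinarith
  have m0 : 1 ≤ m := by
    by_contra h0
    have h5 : m = 0 := by omega
    rw [h5, pow_zero, mul_one] at m1
    have h6 : (12 * (M * k) : ℝ) ≤ a := by exact_mod_cast m1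
    linarith
  have m2 : a * 2 ^ m ≤ 24 * (M * k) := by
    have h5 := m3 (m - 1) (by omega)
    have h6 : 2 ^ m = 2 * 2 ^ (m - 1) := by
      rw [← pow_succ']
      congr 1
      omega
    rw [h6]
    calc a * (2 * 2 ^ (m - 1)) = 2 * (a * 2 ^ (m - 1)) := by ring
      _ ≤ 24 * (M * k) := by omega
  have n1 : (m + 1 : ℝ) ≤ 2 * x := by
    have h5 : (2 : ℝ) ^ m ≤ L := by
      have h6 : (a : ℝ) * 2 ^ m ≤ 24 * (M * k) := by exact_mod_cast m2
      have h7 : (1 : ℝ) * 2 ^ m ≤ a * 2 ^ m := by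
        gcongr
        exact_mod_cast apos
      have h8 : (24 : ℝ) * (M * k) ≤ 200000 * (M : ℝ) ^ 2 * x ^ 2 * k := by
        have h9 : (24 : ℝ) * M ≤ 200000 * (M : ℝ) ^ 2 * x ^ 2 := by
          have h10 : (M : ℝ) ≤ (M : ℝ) ^ 2 * x ^ 2 := by nlinarith
          nlinarith
        calc (24 : ℝ) * (M * k) = (24 * M) * k := by ring
          _ ≤ (200000 * (M : ℝ) ^ 2 * x ^ 2) * k := by gcongr
      linarith
    rw [← Real.rpow_natCast, Real.rpow_def_of_pos (by norm_num), hL, Real.exp_le_exp] at h5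
    have hm0 : (0 : ℝ) ≤ m := Nat.cast_nonneg m
    nlinarith
  refine ⟨μ, a, m, fun i => ⌈(k : ℝ) * (2 / 25) / 2 ^ (i - 1) + 40 * x⌉₊, h2, ?_, ?_, x10, hM,
    hMx, k1, k3, a1, a2, a3, m0, m1, m2, n1, fun i => Nat.le_ceil _, ?_⟩
  · rw [div_le_iff₀ (by positivity)]
    rw [pow_succ] at h4
    linarith
  · exact h3
  · intro i
    have h5 := Nat.ceil_lt_add_one (a := (k : ℝ) * (2 / 25) / 2 ^ (i - 1) + 40 * x) (by positivity)
    have h6 : (k : ℝ) * (2 / 25) / 2 ^ (i - 1) = (k : ℝ) * (2 / 25) * (1 / 2 ^ (i - 1)) := by ring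
    rw [h6] at h5 ⊢
    linarith

theorem num_choice2 (M CD C₃ s N₀ W : ℕ) (C₄ ε : ℝ) (hM : 1 ≤ M) (hC₄ : 1 ≤ C₄) (hε : 0 < ε) :
    ∃ (c₀ : ℝ) (Ca : ℕ), 0 < c₀ ∧ ∃ X₀ : ℕ, ∀ X : ℕ, X₀ ≤ X → ∃ (a n μ : ℕ) (Kf : ℕ → ℕ),
      2 ≤ μ ∧ c₀ * Real.log X / (Real.log (Real.log X)) ^ 2 ≤ 2 ^ μ ∧
      (M + W + 1) * (2 : ℝ) ^ μ ≤ Real.log X ∧
      (Real.log X) ^ (1600 * M : ℝ) ≤ 2 ^ a ∧ (a : ℝ) ≤ Ca * Real.log (Real.log X) ∧
      2 ≤ n ∧ (n : ℝ) ≤ Real.log X ∧ 12 * (M * 2 ^ (μ - 1)) ≤ a * 2 ^ (n - 1) ∧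
      a * 2 ^ (n - 1) ≤ 24 * (M * 2 ^ (μ - 1)) ∧
      2 * (∑ i ∈ Ico 1 n, Kf i + s + CD) ≤ 2 ^ (μ - 1) ∧
      ((C₃ * (8 ^ (M * 2 ^ (μ - 1))) ^ C₃) ^ CD *
        (2 ^ (2 * (a * 2 ^ (μ - 1) + ∑ i ∈ Ico 1 n, a * 2 ^ i * Kf i))) ^ M *
        2 ^ (W * (a * 2 ^ (n - 1)))) ^ 32 ≤ X ∧
      (∀ K₀ : ℕ, 2 ^ (μ - 1) ≤ 2 * K₀ →
        (Real.log X) ^ 10 * ((8 : ℝ) ^ (M * 2 ^ (μ - 1))) ^ (14 / (1600 * M) : ℝ) * (87 / 100 : ℝ) ^ K₀
        + ∑ i ∈ Ico 1 n, 10 * (C₄ * (M * 2 ^ (μ - 1)) ^ 2) ^ (12 * (M * 2 ^ (μ - 1)) / (a * 2 ^ (i - 1)) + 1)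
            * (87 / 100 : ℝ) ^ (Kf i) ≤ ε) ∧
      (N₀ + 1 + M * (√(24 * X) * (8 * (Real.log X) ^ 10 *
          ((8 : ℝ) ^ (M * 2 ^ (μ - 1))) ^ (14 / (1600 * M) - 1 / 2 : ℝ))))
        * (2 ^ (M * 2 ^ (μ - 1) + W) * (2 * (5 * √X))) ≤ ε * (X / Real.log X) := by
  refine ⟨1 / (200000 * (M : ℝ) ^ 2), 2400 * M, by positivity, ?_⟩
  have hx : Filter.Tendsto (fun X : ℕ => Real.log (Real.log X)) Filter.atTop Filter.atTop :=
    Real.tendsto_log_atTop.comp (Real.tendsto_log_atTop.comp tendsto_natCast_atTop_atTop)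
  have h7 : ∀ᶠ x : ℝ in Filter.atTop, 400000000 * x ^ 6 ≤ Real.exp x := by
    have h := (Real.tendsto_exp_div_pow_atTop 6).eventually_ge_atTop 400000000
    filter_upwards [h, Filter.eventually_gt_atTop 0] with x hx hx0
    rwa [le_div_iff₀ (by positivity)] at hx
  have h8 := hx.eventually (h7.and ((Filter.eventually_ge_atTop 10).and
    ((Filter.eventually_ge_atTop (C₃ * CD : ℝ)).and
    ((Filter.eventually_ge_atTop (2 * (s + CD) : ℝ)).and
    ((Filter.eventually_ge_atTop (800 * (N₀ + 1) / ε : ℝ)).and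
    ((Filter.eventually_ge_atTop C₄).and ((Filter.eventually_ge_atTop (M : ℝ)).and
    (Filter.eventually_ge_atTop (W : ℝ)))))))))
  obtain ⟨X₀, hX₀⟩ := Filter.eventually_atTop.1 (h8.and (Filter.eventually_ge_atTop 3))
  refine ⟨X₀, fun X hX => ?_⟩
  obtain ⟨⟨e7, e1, e2, e3, e4, e5, eM, eW⟩, hX3⟩ := hX₀ X hX
  have hX3' : (3 : ℝ) ≤ X := by exact_mod_cast hX3
  obtain ⟨L, hLdef⟩ : ∃ L, L = Real.log X := ⟨_, rfl⟩
  rw [← hLdef] at e7 e1 e2 e3 e4 e5 eM eW ⊢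
  obtain ⟨x, hxdef⟩ : ∃ x, x = Real.log L := ⟨_, rfl⟩
  rw [← hxdef] at e7 e1 e2 e3 e4 e5 eM eW ⊢
  have hL0 : 0 < L := by
    rw [hLdef]
    exact Real.log_pos (by linarith)
  have hL : L = Real.exp x := by rw [hxdef, Real.exp_log hL0]
  have hXL : (X : ℝ) = Real.exp L := by rw [hLdef, Real.exp_log (by linarith)]
  rw [← hL] at e7
  have hM1 : (1 : ℝ) ≤ M := by exact_mod_cast hM
  obtain ⟨μ, a, m, Kf, h2, h3, h4, H⟩ := NC_params x L M hM hL e1 eM e7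
  refine ⟨a, m + 1, μ, Kf, h2, ?_, ?_, ?_, ?_, ?_, ?_, H.m1, H.m2, ?_, ?_, ?_, ?_⟩
  · refine le_trans (le_of_eq ?_) h3
    have hxne : x ≠ 0 := by linarith
    field_simp
  · refine le_trans ?_ h4
    have hp : (0 : ℝ) < 2 ^ μ := by positivity
    have h5 : (M + W + 1 : ℝ) ≤ 100000 * (M : ℝ) ^ 2 * x ^ 2 := by
      have h6 : (1 : ℝ) ≤ (M : ℝ) ^ 2 := by nlinarith
      have h7 : (1 : ℝ) * x ^ 2 ≤ (M : ℝ) ^ 2 * x ^ 2 := by gcongr
      nlinarith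
    calc (M + W + 1 : ℝ) * 2 ^ μ ≤ (100000 * (M : ℝ) ^ 2 * x ^ 2) * 2 ^ μ := by gcongr
      _ = 2 ^ μ * (100000 * (M : ℝ) ^ 2 * x ^ 2) := by ring
  · rw [← Real.rpow_natCast 2 a, Real.rpow_def_of_pos hL0, Real.rpow_def_of_pos (by norm_num),
      ← hxdef, Real.exp_le_exp]
    have := H.a1
    linarith
  · have := H.a2
    push_cast
    exact this
  · have := H.m0
    omega
  · have h5 := H.n1
    push_cast
    have h6 : 2 * x ≤ L := by
      have h7 := Real.quadratic_le_exp_of_nonneg (x := x) (by linarith)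
      rw [← hL] at h7
      nlinarith
    linarith
  · exact H.c10 s CD e3
  · exact H.c11 C₃ CD W X hXL e2 eW
  · intro K₀ hK
    have h5 := H.c12 hL C₄ ε N₀ hC₄ hε e4 e5 K₀ hK
    push_cast at h5
    exact h5
  · have h5 := H.c13 hL ε N₀ W X hXL hε e4 eW
    exact h5

end Pool.Agent.helper7.JT
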